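import Mathlib
import Pool.Agent.H298R2.Kuyk5
import Pool.Agent.W560.HP.Stm

/-! HP-HIT: Hilbert irreducibility for finitely many polynomials in several variables
(root version), from the one variable form. -/

set_option autoImplicit false

namespace Pool.Agent.W405.HP

open Polynomial
open Pool.Agent.H298R2.Kuyk

theorem lift_multiset {E : Type} [CommRing E] (B : Subring E) (s : Multiset E)
    (h : ∀ x ∈ s, x ∈ B) : ∃ t : Multiset B, t.map (fun b : B => (b : E)) = s := by
  induction s using Multiset.induction_on with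
  | empty => exact ⟨0, rfl⟩
  | cons a s ih =>
    obtain ⟨t, ht⟩ := ih fun x hx => h x (Multiset.mem_cons_of_mem hx)
    exact ⟨⟨a, h a (Multiset.mem_cons_self a s)⟩ ::ₘ t, by rw [Multiset.map_cons, ht]⟩

theorem hit : W560.HP.S_HIT := by
  intro k _ _ hk ι _ q P g hg hP
  classical
  let Q := FractionRing (MvPolynomial ι k)
  let F := AlgebraicClosure Q
  have hcz : CharZero Q := charZero_of_injective_algebraMap
    (IsFractionRing.injective (MvPolynomial ι k) Q)
  have hPQ : ∀ j, (P j).map (algebraMap (MvPolynomial ι k) Q) ≠ 0 := fun j h => by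
    have h1 := hP j 0
    rw [h, eval_zero] at h1
    exact h1 rfl
  have hP0 : ∀ j, P j ≠ 0 := fun j h => hPQ j (by rw [h, Polynomial.map_zero])
  let S : Set F := ⋃ j, {x | x ∈ (((P j).map (algebraMap (MvPolynomial ι k) Q)).map
    (algebraMap Q F)).roots}
  have hSf : S.Finite := by
    refine Set.finite_iUnion fun j => ?_
    have : {x | x ∈ (((P j).map (algebraMap (MvPolynomial ι k) Q)).map
      (algebraMap Q F)).roots} = ((((P j).map (algebraMap (MvPolynomial ι k) Q)).map
      (algebraMap Q F)).roots.toFinset : Set F) := by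
      ext x
      simp
    rw [this]
    exact Finset.finite_toSet _
  have hS : ∀ x ∈ S, IsIntegral Q x := fun x _ => Algebra.IsIntegral.isIntegral x
  obtain ⟨E, hfd, hgal, hSE⟩ := exists_galois (Q := Q) (F := F) S hSf hS
  have hPE : ∀ j, (P j).map (algebraMap (MvPolynomial ι k) E) =
      ((P j).map (algebraMap (MvPolynomial ι k) Q)).map (algebraMap Q E) := by
    intro j
    rw [Polynomial.map_map, ← IsScalarTower.algebraMap_eq]
  have hspl : ∀ j, ((P j).map (algebraMap (MvPolynomial ι k) E)).Splits := by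
    intro j
    refine Splits.of_splits_map (algebraMap E F) (IsAlgClosed.splits _) ?_
    intro x hx
    rw [hPE, Polynomial.map_map, ← IsScalarTower.algebraMap_eq] at hx
    have h1 : x ∈ S := Set.mem_iUnion.mpr ⟨j, hx⟩
    exact ⟨⟨x, hSE h1⟩, rfl⟩
  let T : Finset E := Finset.univ.biUnion fun j : Fin q =>
    ((P j).map (algebraMap (MvPolynomial ι k) E)).roots.toFinset
  let W : Finset E := T ∪ (T ×ˢ (Finset.univ : Finset (E ≃ₐ[Q] E))).image
    (fun p => (p.2 p.1 - p.1)⁻¹)
  obtain ⟨a, ha, F', _, _, _, _, ψ, B, hR, hB, Φ, hWB, hΦR, hΦψ⟩ :=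
    spec_mv (Q := Q) (E := E) hk W (g * ∏ j, (P j).leadingCoeff)
      (mul_ne_zero hg (Finset.prod_ne_zero_iff.mpr fun j _ => leadingCoeff_ne_zero.mpr (hP0 j)))
  rw [map_mul, map_prod] at ha
  refine ⟨a, left_ne_zero_of_mul ha, fun j x hx => ?_⟩
  have halc : MvPolynomial.eval a (P j).leadingCoeff ≠ 0 :=
    Finset.prod_ne_zero_iff.mp (right_ne_zero_of_mul ha) j (Finset.mem_univ j)
  have hTW : ∀ θ ∈ T, θ ∈ W := fun θ h => Finset.mem_union_left _ h
  have hrT : ∀ θ ∈ ((P j).map (algebraMap (MvPolynomial ι k) E)).roots, θ ∈ T := by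
    intro θ hθ
    exact Finset.mem_biUnion.mpr ⟨j, Finset.mem_univ j, Multiset.mem_toFinset.mpr hθ⟩
  obtain ⟨s, hs⟩ := lift_multiset B ((P j).map (algebraMap (MvPolynomial ι k) E)).roots
    fun θ hθ => hWB (hTW θ (hrT θ hθ))
  let ρ : MvPolynomial ι k →+* B := (algebraMap (MvPolynomial ι k) E).codRestrict B hR
  have hρ : B.subtype.comp ρ = algebraMap (MvPolynomial ι k) E := rfl
  have hΦρ : Φ.comp ρ = (algebraMap k F').comp (MvPolynomial.eval a) := RingHom.ext hΦR
  have hPE0 : (P j).map (algebraMap (MvPolynomial ι k) E) ≠ 0 := by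
    rw [hPE]
    exact (Polynomial.map_ne_zero_iff (algebraMap Q E).injective).mpr (hPQ j)
  have hinjE : Function.Injective (algebraMap (MvPolynomial ι k) E) := by
    rw [IsScalarTower.algebraMap_eq (MvPolynomial ι k) Q E]
    exact (algebraMap Q E).injective.comp (IsFractionRing.injective (MvPolynomial ι k) Q)
  have hfac : (P j).map ρ = C (ρ (P j).leadingCoeff) * (s.map (fun b => X - C b)).prod := by
    apply Polynomial.map_injective B.subtype Subtype.val_injective
    rw [Polynomial.map_map, hρ, Polynomial.map_mul, Polynomial.map_C,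
      Polynomial.map_multiset_prod, Multiset.map_map]
    conv_lhs => rw [(hspl j).eq_prod_roots]
    rw [leadingCoeff_map_of_injective hinjE]
    congr 2
    rw [← hs, Multiset.map_map]
    refine Multiset.map_congr rfl fun b _ => ?_
    simp
  have hfac2 := congrArg (Polynomial.map Φ) hfac
  rw [Polynomial.map_map, hΦρ, Polynomial.map_mul, Polynomial.map_C,
    Polynomial.map_multiset_prod, Multiset.map_map, ← Polynomial.map_map] at hfac2
  have hev := congrArg (Polynomial.eval (algebraMap k F' x)) hfac2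
  rw [Polynomial.eval_map_algebraMap, Polynomial.aeval_algebraMap_apply,
    Polynomial.aeval_def, Algebra.algebraMap_self, ← Polynomial.eval_map, Polynomial.map_id, hx,
    map_zero, eval_mul, eval_C, eval_multiset_prod, Multiset.map_map] at hev
  have hlc : Φ (ρ (P j).leadingCoeff) ≠ 0 := by
    have h1 : Φ (ρ (P j).leadingCoeff) = algebraMap k F' (MvPolynomial.eval a (P j).leadingCoeff) :=
      hΦR _
    rw [h1]
    exact (_root_.map_ne_zero _).mpr halc
  have hz := (mul_eq_zero.mp hev.symm).resolve_left hlc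
  rw [Multiset.prod_eq_zero_iff, Multiset.mem_map] at hz
  obtain ⟨b, hb, hb0⟩ := hz
  simp only [Function.comp_apply, Polynomial.map_sub, Polynomial.map_X, Polynomial.map_C, eval_sub,
    eval_X, eval_C] at hb0
  have hbθ : (b : E) ∈ ((P j).map (algebraMap (MvPolynomial ι k) E)).roots := by
    rw [← hs]
    exact Multiset.mem_map_of_mem _ hb
  have hroot : ((P j).map (algebraMap (MvPolynomial ι k) E)).eval (b : E) = 0 :=
    (mem_roots'.mp hbθ).2
  have hnr : (b : E) ∉ Set.range (algebraMap Q E) := by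
    rintro ⟨θ, hθ⟩
    apply hP j θ
    rw [hPE, ← hθ, Polynomial.eval_map_algebraMap, Polynomial.aeval_algebraMap_apply,
      map_eq_zero, Polynomial.aeval_def, Algebra.algebraMap_self, ← Polynomial.eval_map,
      Polynomial.map_id] at hroot
    exact hroot
  rw [IsGalois.mem_range_algebraMap_iff_fixed] at hnr
  push Not at hnr
  obtain ⟨σ, hσ⟩ := hnr
  have hδ : σ (b : E) - (b : E) ≠ 0 := sub_ne_zero.mpr hσ
  have hδW : (σ (b : E) - (b : E))⁻¹ ∈ W := by
    refine Finset.mem_union_right _ (Finset.mem_image.mpr ⟨((b : E), σ), ?_, rfl⟩)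
    exact Finset.mem_product.mpr ⟨hrT _ hbθ, Finset.mem_univ _⟩
  have h1 : ((⟨σ b, hB σ b⟩ : B) - b) * ⟨(σ (b : E) - (b : E))⁻¹, hWB hδW⟩ = 1 :=
    Subtype.ext (mul_inv_cancel₀ hδ)
  have h2 := congrArg Φ h1
  rw [map_mul, map_sub, hΦψ, map_one, ← sub_eq_zero.mp hb0, AlgEquiv.commutes, sub_self,
    zero_mul] at h2
  exact zero_ne_one h2

end Pool.Agent.W405.HP
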